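import Pool.Agent.Q161.ESM.Stm4

/-! # Project ESG (helper161), job VG: the module `V` -/

set_option autoImplicit false
set_option linter.unusedSectionVars false

namespace Pool.Agent.Q241.ESG

open Polynomial NumberField IsDedekindDomain Finset
open Pool.Agent.Q161.ESM

section

variable {K L : Type} [Field K] [NumberField K] [Field L] [NumberField L]

lemma cp_one (ι : L →+* K) : cp (1 : K ≃ₐ[ℚ] K) ι = ι := RingHom.ext fun _ => rfl

lemma cp_mul (g h : K ≃ₐ[ℚ] K) (ι : L →+* K) : cp (g * h) ι = cp g (cp h ι) := RingHom.ext fun _ => rfl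

lemma cp_inv (g : K ≃ₐ[ℚ] K) (ι : L →+* K) : cp g⁻¹ (cp g ι) = ι := by
  rw [← cp_mul, inv_mul_cancel, cp_one]

lemma cp_inv' (g : K ≃ₐ[ℚ] K) (ι : L →+* K) : cp g (cp g⁻¹ ι) = ι := by
  rw [← cp_mul, mul_inv_cancel, cp_one]

/-- the permutation of the embeddings -/
def cpe (g : K ≃ₐ[ℚ] K) : (L →+* K) ≃ (L →+* K) where
  toFun := cp g
  invFun := cp g⁻¹
  left_inv := cp_inv g
  right_inv := cp_inv' g

end

section

variable {C : Type} {L Bs : C → Type} [∀ c, Field (L c)] [∀ c, NumberField (L c)] [∀ c, Field (Bs c)]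
  (K : Type) [Field K] [NumberField K] (inc : (c : C) → Bs c →+* L c)

open Classical in
/-- the group `V` -/
noncomputable def VG : AddSubgroup ((c : C) → (L c →+* K) → ZMod 2) where
  carrier := {e | ∀ (c : C) (τ : Bs c →+* K),
      ∑ ι ∈ univ.filter (fun ι : L c →+* K => ι.comp (inc c) = τ), e c ι = 0}
  add_mem' := by
    intro a b ha hb c τ
    simp only [Pi.add_apply]
    rw [Finset.sum_add_distrib, ha c τ, hb c τ, add_zero]
  zero_mem' := fun c τ => by simp
  neg_mem' := by
    intro a ha c τ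
    simp only [Pi.neg_apply]
    rw [Finset.sum_neg_distrib, ha c τ, neg_zero]

variable {K inc}

open Classical in
lemma act_mem (g : K ≃ₐ[ℚ] K) {e : (c : C) → (L c →+* K) → ZMod 2} (he : e ∈ VG K inc) :
    (fun c ι => e c (cp g⁻¹ ι)) ∈ VG K inc := by
  intro c τ
  have h := he c (((g⁻¹ : K ≃ₐ[ℚ] K) : K →+* K).comp τ)
  rw [← h]
  refine Finset.sum_equiv (cpe g⁻¹) ?_ fun ι _ => rfl
  intro ι
  rw [mem_filter, mem_filter]
  refine and_congr (by simp) ?_
  constructor
  · rintro rfl
    exact RingHom.ext fun _ => rfl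
  · intro h1
    refine RingHom.ext fun x => ?_
    have h2 := congrArg (fun φ : Bs c →+* K => φ x) h1
    exact (g⁻¹ : K ≃ₐ[ℚ] K).injective h2

/-- the action -/
@[reducible] noncomputable def act : DistribMulAction (K ≃ₐ[ℚ] K) (VG K inc) where
  smul g e := ⟨fun c ι => e.1 c (cp g⁻¹ ι), act_mem g e.2⟩
  one_smul e := by
    apply Subtype.ext
    funext c ι
    show e.1 c (cp 1⁻¹ ι) = e.1 c ι
    rw [inv_one, cp_one]
  mul_smul g h e := by
    apply Subtype.ext
    funext c ι
    show e.1 c (cp (g * h)⁻¹ ι) = e.1 c (cp h⁻¹ (cp g⁻¹ ι))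
    rw [mul_inv_rev, cp_mul]
  smul_zero g := by
    apply Subtype.ext
    funext c ι
    rfl
  smul_add g a b := by
    apply Subtype.ext
    funext c ι
    rfl

end

theorem vg : S_VG := by
  classical
  intro C _ L Bs _ _ _ K _ _ _ inc
  letI := act (K := K) (inc := inc)
  refine ⟨VG K inc, inferInstance, Fintype.ofFinite _, inferInstance, (VG K inc).subtype, ?_, ?_, ?_⟩
  · exact (VG K inc).subtype_injective
  · intro e
    constructor
    · rintro ⟨t, rfl⟩
      intro c τ
      have h := t.2 c τ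
      convert h using 2
      rfl
    · intro h
      refine ⟨⟨e, ?_⟩, rfl⟩
      intro c τ
      have h1 := h c τ
      convert h1 using 2
  · intro g t c ι
    show t.1 c (cp g⁻¹ (cp g ι)) = t.1 c ι
    rw [cp_inv]

end Pool.Agent.Q241.ESG
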