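import Mathlib
import Pool.Agent.Q161.ESG.Stm5

/-!
# Project ESG (helper161), job SEMJ: products of semisimple modules
-/

set_option autoImplicit false

namespace Pool.Agent.Q241.ESG.Semj

open Polynomial NumberField Finset
open Pool.Agent.Q161.ESG
open Pool.Agent.Y723.HJ (CR OddM HF)
open Pool.Agent.Q51.EL (Setup)
open Pool.Agent.Q161.ESM

/-! ## modules generated by semisimple submodules -/

section lat

/-- the ring of endomorphisms generated by the group -/
def ER (G V : Type) [Group G] [AddCommGroup V] [DistribMulAction G V] : Subring (AddMonoid.End V) :=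
  Subring.closure (Set.range (DistribMulAction.toAddMonoidEnd G V))

variable {G V : Type} [Group G] [AddCommGroup V] [DistribMulAction G V]

lemma end_mem (W : AddSubgroup V) (h : GSt G W) (r : AddMonoid.End V) (hr : r ∈ ER G V) :
    ∀ v ∈ W, r v ∈ W := by
  unfold ER at hr
  induction hr using Subring.closure_induction with
  | mem x hx =>
    obtain ⟨g, rfl⟩ := hx
    intro v hv
    exact h g v hv
  | zero =>
    intro v _
    exact W.zero_mem
  | one =>
    intro v hv
    exact hv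
  | add x y _ _ hx hy =>
    intro v hv
    exact W.add_mem (hx v hv) (hy v hv)
  | neg x _ hx =>
    intro v hv
    exact W.neg_mem (hx v hv)
  | mul x y _ _ hx hy =>
    intro v hv
    exact hx _ (hy v hv)

/-- a stable subgroup as a submodule -/
def sb (W : AddSubgroup V) (h : GSt G W) : Submodule (ER G V) V where
  carrier := W
  add_mem' := fun ha hb => W.add_mem ha hb
  zero_mem' := W.zero_mem
  smul_mem' := fun r v hv => end_mem W h r.1 r.2 v hv

lemma mem_sb (W : AddSubgroup V) (h : GSt G W) (v : V) : v ∈ sb W h ↔ v ∈ W := Iff.rfl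

lemma gst_sub (S : Submodule (ER G V) V) : GSt G S.toAddSubgroup := by
  intro g v hv
  have h1 : DistribMulAction.toAddMonoidEnd G V g ∈ ER G V :=
    Subring.subset_closure ⟨g, rfl⟩
  exact S.smul_mem ⟨_, h1⟩ hv

theorem semi_of_pieces {C : Type} (p : C → AddSubgroup V) (hst : ∀ c, GSt G (p c))
    (htop : ∀ v : V, v ∈ ⨆ c, p c)
    (hcomp : ∀ (c : C) (W : AddSubgroup V), GSt G W → W ≤ p c → ∃ W' : AddSubgroup V,
      GSt G W' ∧ W' ≤ p c ∧ (∀ v ∈ W, v ∈ W' → v = 0) ∧ ∀ v ∈ p c, v ∈ W ⊔ W') :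
    Semi G V := by
  have h1 : ComplementedLattice (Submodule (ER G V) V) := by
    refine complementedLattice_of_complementedLattice_Iic (s := Set.univ)
      (f := fun c => sb (p c) (hst c)) ?_ ?_
    · intro c _
      refine ⟨?_⟩
      rintro ⟨S, hS⟩
      obtain ⟨W', hW', hle, hd, hs⟩ := hcomp c S.toAddSubgroup (gst_sub S) (fun v hv => hS hv)
      refine ⟨⟨sb W' hW', fun v hv => hle hv⟩, ?_⟩
      rw [Set.Iic.isCompl_iff]
      constructor
      · rw [Submodule.disjoint_def]
        intro v hv hv'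
        exact hd v hv hv'
      · apply le_antisymm
        · exact sup_le hS (fun v hv => hle hv)
        · intro v hv
          have h2 := hs v hv
          rw [AddSubgroup.mem_sup] at h2
          obtain ⟨a, ha, b, hb, rfl⟩ := h2
          exact Submodule.add_mem_sup (S := S) (T := sb W' hW') ha hb
    · rw [eq_top_iff]
      intro v _
      have h2 := htop v
      refine AddSubgroup.iSup_induction p (C := fun v => v ∈ ⨆ i ∈ (Set.univ : Set C), sb (p i) (hst i))
        h2 ?_ ?_ ?_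
      · intro i x hx
        exact Submodule.mem_iSup_of_mem i (Submodule.mem_iSup_of_mem (Set.mem_univ i) hx)
      · exact Submodule.zero_mem _
      · intro x y hx hy
        exact Submodule.add_mem _ hx hy
  intro W hW
  obtain ⟨S, hS⟩ := h1.exists_isCompl (sb W hW)
  refine ⟨S.toAddSubgroup, gst_sub S, ?_⟩
  constructor
  · rw [AddSubgroup.disjoint_def]
    intro v hv hv'
    exact (Submodule.disjoint_def.1 hS.disjoint) v hv hv'
  · rw [codisjoint_iff, eq_top_iff]
    intro v _
    have h2 : v ∈ sb W hW ⊔ S := by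
      rw [hS.sup_eq_top]
      trivial
    rw [Submodule.mem_sup] at h2
    obtain ⟨a, ha, b, hb, rfl⟩ := h2
    exact AddSubgroup.add_mem_sup ha hb

end lat

/-! ## the zeros of `h` and the embeddings -/

section emb

variable {f : ℤ[X]} {L : Type} [Field L] [NumberField L] {θ : L}

lemma aeval_map_int {R : Type} [CommRing R] [Algebra ℚ R] (z : R) (f : ℤ[X]) :
    aeval z (f.map (Int.castRingHom ℚ)) = aeval z f := by
  rw [aeval_def, aeval_def, eval₂_map]
  congr 1
  exact RingHom.ext_int _ _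

lemma min_deg (hs : Setup f L θ) : (minpoly ℚ θ).natDegree = Module.finrank ℚ L := by
  have h0 : aeval θ (f.map (Int.castRingHom ℚ)) = 0 := by
    rw [aeval_map_int]
    exact hs.root
  have h1 := minpoly.eq_of_irreducible hs.irr h0
  rw [← h1, natDegree_mul_C (inv_ne_zero (leadingCoeff_ne_zero.2 hs.irr.ne_zero)), hs.deg,
    natDegree_map_eq_of_injective (Int.castRingHom ℚ).injective_int]

lemma gen (hs : Setup f L θ) : Algebra.adjoin ℚ {θ} = ⊤ := by
  have h1 := IntermediateField.adjoin_simple_toSubalgebra_of_isAlgebraic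
    (Algebra.IsAlgebraic.isAlgebraic (R := ℚ) θ)
  rw [← h1, (Field.primitive_element_iff_minpoly_natDegree_eq ℚ θ).2 (min_deg hs)]
  rfl

lemma ring_ext (hs : Setup f L θ) {A : Type} [Field A] [CharZero A] {j j' : L →+* A}
    (h : j θ = j' θ) : j = j' := by
  letI : Algebra ℚ A := DivisionRing.toRatAlgebra
  have h1 : j.toRatAlgHom = j'.toRatAlgHom := by
    refine AlgHom.ext_of_adjoin_eq_top (gen hs) ?_
    intro y hy
    rw [Set.mem_singleton_iff] at hy
    subst hy
    exact h
  ext x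
  exact DFunLike.congr_fun h1 x

variable (H : HP)

lemma root_ev (hs : Setup H.pol L θ) {A : Type} [Field A] (j : L →+* A) :
    (pol H A).eval (j θ) = 0 := by
  have h1 := congrArg j hs.root
  rw [aeval_def, hom_eval₂, map_zero] at h1
  unfold pol
  rw [eval_map]
  have h2 : j.comp (algebraMap ℤ L) = Int.castRingHom A := RingHom.ext_int _ _
  rw [← h2]
  exact h1

lemma pol_ne (A : Type) [Field A] : pol H A ≠ 0 := (H.monic.map _).ne_zero

lemma hfq (hs : Setup H.pol L θ) (A : Type) [Field A] [CharZero A] : HF (pol H A) := by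
  letI : Algebra ℚ A := DivisionRing.toRatAlgebra
  refine { toOddM := inferInstance, sep := ?_, two := two_ne_zero }
  have h1 : pol H A = (H.pol.map (Int.castRingHom ℚ)).map (algebraMap ℚ A) := by
    unfold pol
    rw [Polynomial.map_map]
    congr 1
    exact RingHom.ext_int _ _
  rw [h1]
  exact hs.irr.separable.map

variable {K : Type} [Field K] [NumberField K] [IsGalois ℚ K]

lemma root_mem (hs : Setup H.pol L θ) (φ : K →ₐ[ℚ] QB) (ι : L →+* K) :
    φ (ι θ) ∈ (pol H QB).roots := by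
  rw [mem_roots (pol_ne H QB), IsRoot.def]
  exact root_ev H hs ((φ : K →+* QB).comp ι)

lemma root_surj (hs : Setup H.pol L θ) (φ : K →ₐ[ℚ] QB) (hne : Nonempty (L →+* K)) (x : QB)
    (hx : x ∈ (pol H QB).roots) : ∃ ι : L →+* K, φ (ι θ) = x := by
  obtain ⟨j⟩ := hne
  have hx0 : aeval x (H.pol.map (Int.castRingHom ℚ)) = 0 := by
    rw [aeval_map_int]
    rw [mem_roots (pol_ne H QB), IsRoot.def] at hx
    unfold pol at hx
    rw [eval_map] at hx
    rw [aeval_def]
    rw [← hx]
    congr 1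
  have hy0 : aeval (φ (j θ)) (H.pol.map (Int.castRingHom ℚ)) = 0 := by
    rw [aeval_map_int]
    have h1 := root_ev H hs ((φ : K →+* QB).comp j)
    unfold pol at h1
    rw [eval_map] at h1
    rw [aeval_def]
    rw [← h1]
    congr 1
  have hm : minpoly ℚ x = minpoly ℚ (φ (j θ)) := by
    rw [← minpoly.eq_of_irreducible hs.irr hx0, ← minpoly.eq_of_irreducible hs.irr hy0]
  rw [Normal.minpoly_eq_iff_mem_orbit] at hm
  obtain ⟨σ, hσ⟩ := hm
  letI : Algebra K QB := (φ : K →+* QB).toAlgebra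
  haveI : IsScalarTower ℚ K QB := IsScalarTower.of_algebraMap_eq fun q => (φ.commutes q).symm
  have h2 := AlgEquiv.restrictNormal_commutes σ K (j θ)
  refine ⟨((AlgEquiv.restrictNormal σ K : K ≃ₐ[ℚ] K) : K →+* K).comp j, ?_⟩
  rw [← hσ]
  exact h2

lemma gal_ext (φ : K →ₐ[ℚ] QB) (g : K ≃ₐ[ℚ] K) : ∃ σ : GQ, ∀ x, σ (φ x) = φ (g x) := by
  letI : Algebra K QB := (φ : K →+* QB).toAlgebra
  haveI : IsScalarTower ℚ K QB := IsScalarTower.of_algebraMap_eq fun q => (φ.commutes q).symm
  exact ⟨AlgEquiv.liftNormal g QB, fun x => AlgEquiv.liftNormal_commutes g QB x⟩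

lemma gal_res (φ : K →ₐ[ℚ] QB) (σ : GQ) : ∃ g : K ≃ₐ[ℚ] K, ∀ x, σ (φ x) = φ (g x) := by
  letI : Algebra K QB := (φ : K →+* QB).toAlgebra
  haveI : IsScalarTower ℚ K QB := IsScalarTower.of_algebraMap_eq fun q => (φ.commutes q).symm
  exact ⟨AlgEquiv.restrictNormal σ K, fun x => (AlgEquiv.restrictNormal_commutes σ K x).symm⟩

end emb

/-! ## signs -/

/-- the sign attached to an element of `ZMod 2` -/
noncomputable def sn (a : ZMod 2) : QB := if a = 1 then -1 else 1

lemma zm (a : ZMod 2) : a = 0 ∨ a = 1 := by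
  fin_cases a
  · exact Or.inl rfl
  · exact Or.inr rfl

lemma sn_zero : sn 0 = 1 := by
  unfold sn
  rw [if_neg (by decide)]

lemma sn_one : sn 1 = -1 := by
  unfold sn
  rw [if_pos rfl]

lemma sn_add (a b : ZMod 2) : sn (a + b) = sn a * sn b := by
  rcases zm a with rfl | rfl <;> rcases zm b with rfl | rfl
  · rw [add_zero, sn_zero, mul_one]
  · rw [zero_add, sn_zero, one_mul]
  · rw [add_zero, sn_zero, mul_one]
  · have h : (1 : ZMod 2) + 1 = 0 := by decide
    rw [h, sn_zero, sn_one]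
    norm_num

lemma sn_inj {a b : ZMod 2} (h : sn a = sn b) : a = b := by
  rcases zm a with rfl | rfl <;> rcases zm b with rfl | rfl
  · rfl
  · rw [sn_zero, sn_one] at h
    norm_num at h
  · rw [sn_zero, sn_one] at h
    norm_num at h
  · rfl

lemma sn_sum {ι : Type} (s : Finset ι) (e : ι → ZMod 2) : sn (∑ i ∈ s, e i) = ∏ i ∈ s, sn (e i) := by
  classical
  induction s using Finset.induction_on with
  | empty => rw [sum_empty, prod_empty, sn_zero]
  | insert a s ha ih => rw [sum_insert ha, prod_insert ha, sn_add, ih]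

open Classical in
/-- the coordinates of a point of order two -/
noncomputable def co (H : HP) [HF (pol H QB)] {L K : Type} [Field L] [Field K] (φ : K → QB) (θ : L)
    (T : Jac H QB) (ι : L →+* K) : ZMod 2 := if sg H T (φ (ι θ)) = -1 then 1 else 0

section one

variable (H : HP) [HF (pol H QB)] {L : Type} [Field L] [NumberField L] {θ : L}
  {K : Type} [Field K] [NumberField K] [IsGalois ℚ K]

lemma sn_co (hS : S_SGP) (hs : Setup H.pol L θ) (φ : K →ₐ[ℚ] QB) (T : Jac H QB) (hT : T + T = 0)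
    (ι : L →+* K) : sn (co H φ θ T ι) = sg H T (φ (ι θ)) := by
  obtain ⟨h1, -⟩ := hS H QB
  unfold co
  rcases h1 T hT _ (root_mem H hs φ ι) with h | h
  · rw [if_neg (by rw [h]; norm_num), sn_zero, h]
  · rw [if_pos h, sn_one, h]

lemma co_add (hS : S_SGP) (hs : Setup H.pol L θ) (φ : K →ₐ[ℚ] QB) (T T' : Jac H QB)
    (hT : T + T = 0) (hT' : T' + T' = 0) :
    (co H φ θ (T + T') : (L →+* K) → ZMod 2) = co H φ θ T + co H φ θ T' := by
  obtain ⟨-, h2, -⟩ := hS H QB
  have h3 : T + T' + (T + T') = 0 := by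
    have e : T + T' + (T + T') = (T + T) + (T' + T') := by abel
    rw [e, hT, hT', add_zero]
  funext ι
  apply sn_inj
  rw [sn_co H hS hs φ _ h3, h2 T T' hT hT' _ (root_mem H hs φ ι), Pi.add_apply, sn_add,
    sn_co H hS hs φ _ hT, sn_co H hS hs φ _ hT']

lemma co_zero (hS : S_SGP) (hs : Setup H.pol L θ) (φ : K →ₐ[ℚ] QB) :
    (co H φ θ (0 : Jac H QB) : (L →+* K) → ZMod 2) = 0 := by
  have h := co_add H hS hs φ (0 : Jac H QB) 0 (add_zero 0) (add_zero 0)
  rw [add_zero] at h
  have h2 : (co H φ θ (0 : Jac H QB) : (L →+* K) → ZMod 2) + co H φ θ (0 : Jac H QB) =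
    co H φ θ (0 : Jac H QB) + 0 := by rw [add_zero]; exact h.symm
  exact add_left_cancel h2

open Classical in
lemma prod_roots (hs : Setup H.pol L θ) (φ : K →ₐ[ℚ] QB)
    (hne : Nonempty (L →+* K)) (s : QB → QB) :
    ∏ x ∈ (pol H QB).roots.toFinset, s x = ∏ ι : L →+* K, s (φ (ι θ)) := by
  symm
  refine Finset.prod_bij (fun ι _ => φ (ι θ)) ?_ ?_ ?_ ?_
  · intro ι _
    rw [Multiset.mem_toFinset]
    exact root_mem H hs φ ι
  · intro ι _ ι' _ h
    exact ring_ext hs (φ.injective h)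
  · intro x hx
    rw [Multiset.mem_toFinset] at hx
    obtain ⟨ι, hι⟩ := root_surj H hs φ hne x hx
    exact ⟨ι, mem_univ _, hι⟩
  · intro ι _
    rfl

lemma co_sum (hS : S_SGP) (hs : Setup H.pol L θ) (φ : K →ₐ[ℚ] QB)
    (hne : Nonempty (L →+* K)) (T : Jac H QB) (hT : T + T = 0) :
    ∑ ι : L →+* K, co H φ θ T ι = 0 := by
  obtain ⟨-, -, -, -, h5, -⟩ := hS H QB
  apply sn_inj
  rw [sn_sum, sn_zero, ← h5 T hT, prod_roots H hs φ hne]
  exact prod_congr rfl fun ι _ => sn_co H hS hs φ T hT ι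

lemma co_surj (hS : S_SGP) (hs : Setup H.pol L θ) (φ : K →ₐ[ℚ] QB)
    (hne : Nonempty (L →+* K)) (e : (L →+* K) → ZMod 2) (he : ∑ ι : L →+* K, e ι = 0) :
    ∃ T : Jac H QB, T + T = 0 ∧ co H φ θ T = e := by
  classical
  obtain ⟨-, -, -, h4, -⟩ := hS H QB
  let s : QB → QB := fun x => if ∃ ι : L →+* K, φ (ι θ) = x ∧ e ι = 1 then -1 else 1
  have hsv : ∀ ι : L →+* K, s (φ (ι θ)) = sn (e ι) := by
    intro ι
    by_cases h : e ι = 1
    · have h1 : ∃ ι' : L →+* K, φ (ι' θ) = φ (ι θ) ∧ e ι' = 1 := ⟨ι, rfl, h⟩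
      simp only [s]
      rw [if_pos h1, h, sn_one]
    · have h1 : ¬ ∃ ι' : L →+* K, φ (ι' θ) = φ (ι θ) ∧ e ι' = 1 := by
        rintro ⟨ι', h2, h3⟩
        have h4 : ι' = ι := ring_ext hs (φ.injective h2)
        rw [h4] at h3
        exact h h3
      simp only [s]
      rw [if_neg h1]
      rcases zm (e ι) with h2 | h2
      · rw [h2, sn_zero]
      · exact absurd h2 h
  obtain ⟨T, hT, h⟩ := h4 s (by
    intro x _
    simp only [s]
    split_ifs
    · exact Or.inr rfl
    · exact Or.inl rfl) (by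
    rw [prod_roots H hs φ hne, ← sn_zero, ← he, sn_sum]
    exact prod_congr rfl fun ι _ => hsv ι)
  refine ⟨T, hT, ?_⟩
  funext ι
  apply sn_inj
  rw [sn_co H hS hs φ T hT, h _ (root_mem H hs φ ι), hsv]

lemma co_inj (hS : S_SGP) (hs : Setup H.pol L θ) (φ : K →ₐ[ℚ] QB)
    (hne : Nonempty (L →+* K)) (T : Jac H QB) (hT : T + T = 0)
    (h : (co H φ θ T : (L →+* K) → ZMod 2) = 0) : T = 0 := by
  obtain ⟨-, -, h3, -⟩ := hS H QB
  refine h3 T hT fun x hx => ?_
  obtain ⟨ι, rfl⟩ := root_surj H hs φ hne x hx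
  rw [← sn_co H hS hs φ T hT, h]
  exact sn_zero

lemma co_act (hS : S_SGP) (hs : Setup H.pol L θ) (φ : K →ₐ[ℚ] QB)
    (T : Jac H QB) (hT : T + T = 0) (σ : GQ) (g : K ≃ₐ[ℚ] K) (hg : ∀ x, σ (φ x) = φ (g x))
    (ι : L →+* K) : co H φ θ (act H σ T) (cp g ι) = co H φ θ T ι := by
  obtain ⟨-, -, -, -, -, h6⟩ := hS H QB
  have hT2 : act H σ T + act H σ T = 0 := by rw [← act_add, hT, act_zero]
  apply sn_inj
  rw [sn_co H hS hs φ _ hT2]
  have h7 := h6 QB (σ : QB →+* QB) T hT _ (root_mem H hs φ ι)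
  have h8 : φ ((cp g ι) θ) = (σ : QB →+* QB) (φ (ι θ)) := (hg (ι θ)).symm
  rw [h8]
  change sg H (pointMap H (σ : QB →+* QB) T) _ = _
  rw [h7, ← sn_co H hS hs φ T hT]
  rcases zm (co H φ θ T ι) with h | h
  · rw [h, sn_zero, map_one]
  · rw [h, sn_one, map_neg, map_one]

end one

section main

variable {C : Type} {H : C → HP} {L : C → Type} [∀ c, Field (L c)] [∀ c, NumberField (L c)]
  {th : (c : C) → 𝓞 (L c)} {K : Type} [Field K] [NumberField K] [IsGalois ℚ K]
  {V : Type} [AddCommGroup V] [DistribMulAction (K ≃ₐ[ℚ] K) V]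
  {cd : V →+ ((c : C) → (L c →+* K) → ZMod 2)}

lemma vb_im (hV : VB (fun c => algebraMap ℚ (L c)) cd) (e : (c : C) → (L c →+* K) → ZMod 2) :
    (∃ t : V, cd t = e) ↔ ∀ c, ∑ ι : L c →+* K, e c ι = 0 := by
  classical
  rw [hV.im e]
  have h : ∀ (c : C) (τ : ℚ →+* K),
      univ.filter (fun ι : L c →+* K => ι.comp (algebraMap ℚ (L c)) = τ) = univ := by
    intro c τ
    rw [Finset.filter_eq_self]
    intro ι _
    exact Subsingleton.elim _ _
  constructor
  · intro h1 c
    have h2 := h1 c (algebraMap ℚ K)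
    rw [← h2]
    symm
    refine Finset.sum_congr ?_ fun _ _ => rfl
    convert h c (algebraMap ℚ K)
  · intro h1 c τ
    rw [← h1 c]
    refine Finset.sum_congr ?_ fun _ _ => rfl
    convert h c τ

/-- the part of `V` with coordinates in `c` -/
def Pc (cd : V →+ ((c : C) → (L c →+* K) → ZMod 2)) (c : C) : AddSubgroup V where
  carrier := {v | ∀ c', c' ≠ c → cd v c' = 0}
  zero_mem' := fun c' _ => by rw [map_zero]; rfl
  add_mem' := fun {a b} ha hb c' hc => by
    rw [map_add, Pi.add_apply, ha c' hc, hb c' hc, add_zero]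
  neg_mem' := fun {a} ha c' hc => by
    rw [map_neg, Pi.neg_apply, ha c' hc, neg_zero]

lemma cp_inv (g : K ≃ₐ[ℚ] K) {L' : Type} [Field L'] (ι : L' →+* K) :
    cp g (cp g⁻¹ ι) = ι := by
  ext x
  change g (g⁻¹ (ι x)) = ι x
  exact AlgEquiv.apply_symm_apply g (ι x)

lemma gst_Pc (hV : VB (fun c => algebraMap ℚ (L c)) cd) (c : C) :
    GSt (K ≃ₐ[ℚ] K) (Pc cd c) := by
  intro g v hv c' hc
  funext ι
  have h := hV.eqv g v c' (cp g⁻¹ ι)
  rw [cp_inv] at h
  rw [h, hv c' hc]
  rfl

open Classical in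
theorem semj_core [Fintype C] (hS : S_SGP) (hs : ∀ c, Setup (H c).pol (L c) (th c : L c))
    (hss : ∀ c, SemisimpleTwo (H c)) (hne : ∀ c, Nonempty (L c →+* K))
    (hV : VB (fun c => algebraMap ℚ (L c)) cd) : Semi (K ≃ₐ[ℚ] K) V := by
  haveI hHF : ∀ c, HF (pol (H c) QB) := fun c => hfq (H c) (hs c) QB
  let φ : K →ₐ[ℚ] QB := IsAlgClosed.lift
  refine semi_of_pieces (Pc cd) (gst_Pc hV) ?_ ?_
  · intro v
    have hex : ∀ c : C, ∃ t : V, cd t = Pi.single c (cd v c) := by
      intro c
      rw [vb_im hV]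
      intro c'
      by_cases hc : c' = c
      · subst hc
        rw [Pi.single_eq_same]
        exact (vb_im hV (cd v)).1 ⟨v, rfl⟩ c'
      · rw [Pi.single_eq_of_ne hc]
        simp
    choose t ht using hex
    have hsum : v = ∑ c, t c := by
      apply hV.inj
      rw [map_sum]
      simp_rw [ht]
      exact (Finset.univ_sum_single (cd v)).symm
    rw [hsum]
    refine AddSubgroup.sum_mem _ fun c _ => ?_
    refine AddSubgroup.mem_iSup_of_mem c ?_
    intro c' hc
    rw [ht, Pi.single_eq_of_ne hc]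
  · intro c W hW hle
    -- the points of order two and the elements of `V`
    have hex : ∀ T : Jac (H c) QB, T + T = 0 →
        ∃ t : V, cd t = Pi.single c (co (H c) φ (th c : L c) T) := by
      intro T hT
      rw [vb_im hV]
      intro c'
      by_cases hc : c' = c
      · subst hc
        rw [Pi.single_eq_same]
        exact co_sum (H c') hS (hs c') φ (hne c') T hT
      · rw [Pi.single_eq_of_ne hc]
        simp
    have hact : ∀ (T : Jac (H c) QB) (v : V) (σ : GQ) (g : K ≃ₐ[ℚ] K), T + T = 0 →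
        cd v = Pi.single c (co (H c) φ (th c : L c) T) → (∀ x, σ (φ x) = φ (g x)) →
        cd (g • v) = Pi.single c (co (H c) φ (th c : L c) (act (H c) σ T)) := by
      intro T v σ g hT hv hg
      funext c' ι
      have h := hV.eqv g v c' (cp g⁻¹ ι)
      rw [cp_inv] at h
      rw [h, hv]
      by_cases hc : c' = c
      · subst hc
        rw [Pi.single_eq_same, Pi.single_eq_same,
          ← co_act (H c') hS (hs c') φ T hT σ g hg, cp_inv]
      · rw [Pi.single_eq_of_ne hc, Pi.single_eq_of_ne hc]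
        rfl
    let WJ : AddSubgroup (Jac (H c) QB) :=
      { carrier := {T | T + T = 0 ∧ ∃ v ∈ W, cd v = Pi.single c (co (H c) φ (th c : L c) T)}
        zero_mem' := ⟨add_zero 0, 0, W.zero_mem, by
          rw [map_zero, co_zero (H c) hS (hs c) φ, Pi.single_zero]⟩
        add_mem' := by
          rintro a b ⟨ha, v, hv, hva⟩ ⟨hb, w, hw, hwb⟩
          refine ⟨?_, v + w, W.add_mem hv hw, ?_⟩
          · have e : a + b + (a + b) = (a + a) + (b + b) := by abel
            rw [e, ha, hb, add_zero]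
          · rw [map_add, hva, hwb, co_add (H c) hS (hs c) φ a b ha hb, Pi.single_add]
        neg_mem' := by
          rintro a ⟨ha, v, hv, hva⟩
          have e : -a = a := by
            rw [neg_eq_iff_add_eq_zero]
            exact ha
          rw [e]
          exact ⟨ha, v, hv, hva⟩ }
    obtain ⟨WJ', h1, h2, h3⟩ := hss c WJ (by
      rintro T ⟨hT, v, hv, hvT⟩
      refine ⟨hT, fun σ => ?_⟩
      obtain ⟨g, hg⟩ := gal_res φ σ
      refine ⟨by rw [← act_add, hT, act_zero], g • v, hW g v hv, ?_⟩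
      exact hact T v σ g hT hvT hg)
    let W' : AddSubgroup V :=
      { carrier := {v | ∃ T ∈ WJ', cd v = Pi.single c (co (H c) φ (th c : L c) T)}
        zero_mem' := ⟨0, WJ'.zero_mem, by
          rw [map_zero, co_zero (H c) hS (hs c) φ, Pi.single_zero]⟩
        add_mem' := by
          rintro v w ⟨a, ha, hva⟩ ⟨b, hb, hwb⟩
          refine ⟨a + b, WJ'.add_mem ha hb, ?_⟩
          rw [map_add, hva, hwb, co_add (H c) hS (hs c) φ a b (h1 a ha).1 (h1 b hb).1,
            Pi.single_add]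
        neg_mem' := by
          rintro v ⟨a, ha, hva⟩
          refine ⟨a, ha, ?_⟩
          rw [map_neg, hva]
          have e : ∀ x : (c : C) → (L c →+* K) → ZMod 2, -x = x := by
            intro x
            funext c' ι
            exact ZMod.neg_eq_self_mod_two _
          exact e _ }
    refine ⟨W', ?_, ?_, ?_, ?_⟩
    · rintro g v ⟨T, hT, hv⟩
      obtain ⟨σ, hσ⟩ := gal_ext φ g
      exact ⟨act (H c) σ T, (h1 T hT).2 σ, hact T v σ g (h1 T hT).1 hv hσ⟩
    · rintro v ⟨T, hT, hv⟩ c' hc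
      rw [hv, Pi.single_eq_of_ne hc]
    · rintro v hvW ⟨T, hT, hv⟩
      have h4 : T ∈ WJ ⊓ WJ' := ⟨⟨(h1 T hT).1, v, hvW, hv⟩, hT⟩
      rw [h2, AddSubgroup.mem_bot] at h4
      apply hV.inj
      rw [hv, h4, co_zero (H c) hS (hs c) φ, Pi.single_zero, map_zero]
    · intro v hv
      have hvs : cd v = Pi.single c (cd v c) := by
        funext c'
        by_cases hc : c' = c
        · subst hc
          rw [Pi.single_eq_same]
        · rw [Pi.single_eq_of_ne hc, hv c' hc]
      obtain ⟨T, hT, hTe⟩ := co_surj (H c) hS (hs c) φ (hne c) (cd v c)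
        ((vb_im hV (cd v)).1 ⟨v, rfl⟩ c)
      have h5 := h3 T hT
      rw [AddSubgroup.mem_sup] at h5
      obtain ⟨a, ⟨ha, w, hw, hwa⟩, b, hb, hab⟩ := h5
      obtain ⟨w', hw'⟩ := hex b (h1 b hb).1
      have h6 : v = w + w' := by
        apply hV.inj
        rw [map_add, hwa, hw', ← Pi.single_add, ← co_add (H c) hS (hs c) φ a b ha (h1 b hb).1,
          hab, hTe, ← hvs]
      rw [h6]
      exact AddSubgroup.add_mem_sup hw ⟨b, hb, hw'⟩

end main

/-- JOB SEMJ -/
theorem semj : S_SGP → S_SEMJ := by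
  intro hS C _ H L _ _ th hs hss K _ _ _ hne V _ _ cd hV
  exact semj_core hS hs hss hne hV

end Pool.Agent.Q241.ESG.Semj
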